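import Pool.Agent.E8helper61.SI.Stm

set_option autoImplicit false

/-! SI piece COMP: compression. -/

namespace Pool.Agent.E8helper80.SI

open Finset Pool.Agent.E8helper61.SI

variable {α : Type} [DecidableEq α]

theorem step_D {D : Finset α → Prop} (hD : ∀ x y : Finset α, x ⊆ y → D y → D x)
    {A : Finset (Finset α)} (hA : ∀ x ∈ A, ∀ y ∈ A, D (symmDiff x y)) (a : α) :
    ∀ x ∈ Down.compression a A, ∀ y ∈ Down.compression a A, D (symmDiff x y) := by
  have aux : ∀ x y : Finset α, x ∈ A → x.erase a ∈ A → y ∉ A → insert a y ∈ A →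
      D (symmDiff x y) := by
    intro x y hx hx' hy hy'
    have hay : a ∉ y := by
      intro h
      rw [insert_eq_of_mem h] at hy'
      exact hy hy'
    by_cases hax : a ∈ x
    · have e : symmDiff x y = symmDiff (x.erase a) (insert a y) := by
        ext z
        simp only [mem_symmDiff, mem_erase, mem_insert]
        by_cases hz : z = a
        · subst hz; simp [hax, hay]
        · simp [hz]
      rw [e]
      exact hA _ hx' _ hy'
    · refine hD _ _ ?_ (hA _ hx _ hy')
      intro z hz
      simp only [mem_symmDiff, mem_insert] at hz ⊢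
      by_cases hza : z = a
      · subst hza; simp [hax, hay] at hz
      · simpa [hza] using hz
  intro x hx y hy
  rw [Down.mem_compression] at hx hy
  rcases hx with ⟨hx1, hx2⟩ | ⟨hx1, hx2⟩
  · rcases hy with ⟨hy1, hy2⟩ | ⟨hy1, hy2⟩
    · exact hA _ hx1 _ hy1
    · exact aux x y hx1 hx2 hy1 hy2
  · rcases hy with ⟨hy1, hy2⟩ | ⟨hy1, hy2⟩
    · rw [symmDiff_comm]
      exact aux y x hy1 hy2 hx1 hx2
    · have hax : a ∉ x := by
        intro h
        rw [insert_eq_of_mem h] at hx2
        exact hx1 hx2
      have hay : a ∉ y := by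
        intro h
        rw [insert_eq_of_mem h] at hy2
        exact hy1 hy2
      have e : symmDiff x y = symmDiff (insert a x) (insert a y) := by
        ext z
        simp only [mem_symmDiff, mem_insert]
        by_cases hz : z = a
        · subst hz; simp [hax, hay]
        · simp [hz]
      rw [e]
      exact hA _ hx2 _ hy2

theorem step_E {A : Finset (Finset α)} {S : Finset α} (hA : ∀ b ∈ S, ∀ x ∈ A, x.erase b ∈ A)
    (a : α) : ∀ b ∈ insert a S, ∀ x ∈ Down.compression a A, x.erase b ∈ Down.compression a A := by
  intro b hb x hx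
  by_cases hba : b = a
  · subst hba
    exact Down.erase_mem_compression_of_mem_compression hx
  have hbS : b ∈ S := by
    rcases mem_insert.1 hb with h | h
    · exact absurd h hba
    · exact h
  rw [Down.mem_compression] at hx ⊢
  rcases hx with ⟨hx1, hx2⟩ | ⟨hx1, hx2⟩
  · left
    refine ⟨hA b hbS _ hx1, ?_⟩
    rw [erase_right_comm]
    exact hA b hbS _ hx2
  · have hax : a ∉ x := by
      intro h
      rw [insert_eq_of_mem h] at hx2
      exact hx1 hx2
    have h1 : insert a (x.erase b) ∈ A := by
      have h2 := hA b hbS _ hx2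
      rwa [erase_insert_of_ne (Ne.symm hba)] at h2
    by_cases h3 : x.erase b ∈ A
    · left
      refine ⟨h3, ?_⟩
      rw [erase_eq_of_notMem (fun h => hax (mem_of_mem_erase h))]
      exact h3
    · exact Or.inr ⟨h3, h1⟩

theorem comp : CompStatement := by
  intro α _ _ D hD A hA
  have key : ∀ S : Finset α, ∃ B : Finset (Finset α), B.card = A.card ∧
      (∀ x ∈ B, ∀ y ∈ B, D (symmDiff x y)) ∧ ∀ b ∈ S, ∀ x ∈ B, x.erase b ∈ B := by
    intro S
    induction S using Finset.induction_on with
    | empty => exact ⟨A, rfl, hA, by simp⟩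
    | insert a S ha ih =>
      obtain ⟨B, hB1, hB2, hB3⟩ := ih
      refine ⟨Down.compression a B, ?_, step_D hD hB2 a, step_E hB3 a⟩
      rw [Down.card_compression, hB1]
  obtain ⟨B, hB1, hB2, hB3⟩ := key univ
  refine ⟨B, hB1, ?_⟩
  have hsub : ∀ (T x : Finset α), x ∈ B → x \ T ∈ B := by
    intro T
    induction T using Finset.induction_on with
    | empty => intro x hx; simpa using hx
    | insert a T ha ih =>
      intro x hx
      have := hB3 a (mem_univ a) _ (ih x hx)
      rwa [sdiff_insert]
  intro x hx y hy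
  have h1 := hB2 x hx (y \ x) (hsub x y hy)
  have e : symmDiff x (y \ x) = x ∪ y := by
    ext z
    simp only [mem_symmDiff, mem_sdiff, mem_union]
    tauto
  rwa [e] at h1

end Pool.Agent.E8helper80.SI
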